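import Pool.Agent.V8H28.BL.B
import Pool.Agent.V8H12.AM.G

set_option autoImplicit false

/-! Plane systems along the values `β a b + g(a) + h(b)` (helper28). -/

namespace Pool.Agent.V8H28.BL

open Finset Filter
open Pool.Agent.N141.SG (Tgt)
open Pool.Agent.V8H12.AM (tgt_gen one_gen near_gen dtgt_gen ten_gen eleven_gen)

theorem tgt_unif {κ : ℝ} (hκ : 0 < κ) : ∃ M : ℝ, ∀ d : Dat, Large κ M d →
    1 / 10 ^ 89 * ((d.A.card : ℝ) * d.B.card) ≤ cnt d (fun m => 1 ≤ m ∧ Tgt m) := by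
  refine unif fun D hD => ?_
  filter_upwards [tgt_gen (f := vl D) (algSmall_st hκ hD)] with N hN
  rw [card_st, cnt_st D N (fun m => 1 ≤ m ∧ Tgt m)] at hN
  exact_mod_cast hN

theorem one_unif {κ : ℝ} (hκ : 0 < κ) {n : ℕ} (hn : 10 ≤ n) {δ : ℝ} (hδ : 0 < δ) : ∃ M : ℝ, ∀ d : Dat, Large κ M d →
    cnt d (fun m => m = 0 ∨ ¬ Pool.Agent.N141.SG.Ex n m) ≤
      (Pool.Agent.N141.SG.badU n + δ) * ((d.A.card : ℝ) * d.B.card) := by
  refine unif fun D hD => ?_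
  filter_upwards [one_gen (f := vl D) (algSmall_st hκ hD) hn hδ] with N hN
  rw [card_st, cnt_st D N (fun m => m = 0 ∨ ¬ Pool.Agent.N141.SG.Ex n m)] at hN
  exact_mod_cast hN

theorem near_unif {κ : ℝ} (hκ : 0 < κ) {n : ℕ} (hn : 10 ≤ n) {δ : ℝ} (hδ : 0 < δ) : ∃ M : ℝ, ∀ d : Dat, Large κ M d →
    cnt d (fun m => m = 0 ∨ ¬ Pool.Agent.N141.SG.GoodN n m) ≤
      (Pool.Agent.N141.SG.badN n + δ) * ((d.A.card : ℝ) * d.B.card) := by
  refine unif fun D hD => ?_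
  filter_upwards [near_gen (f := vl D) (algSmall_st hκ hD) hn hδ] with N hN
  rw [card_st, cnt_st D N (fun m => m = 0 ∨ ¬ Pool.Agent.N141.SG.GoodN n m)] at hN
  exact_mod_cast hN

theorem dtgt_unif {κ : ℝ} (hκ : 0 < κ) : ∃ M : ℝ, ∀ d : Dat, Large κ M d →
    14 / 1000 * ((d.A.card : ℝ) * d.B.card) ≤ cnt d (fun m => Pool.Agent.N141.SG.DTgt m) := by
  refine unif fun D hD => ?_
  filter_upwards [dtgt_gen (f := vl D) (algSmall_st hκ hD)] with N hN
  rw [card_st, cnt_st D N (fun m => Pool.Agent.N141.SG.DTgt m)] at hN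
  exact_mod_cast hN

theorem ten_unif {κ : ℝ} (hκ : 0 < κ) : ∃ M : ℝ, ∀ d : Dat, Large κ M d →
    486 / 1000 * ((d.A.card : ℝ) * d.B.card) ≤ cnt d (fun m => Pool.Agent.N141.SG.NearDeg 10 m) := by
  refine unif fun D hD => ?_
  filter_upwards [ten_gen (f := vl D) (algSmall_st hκ hD)] with N hN
  rw [card_st, cnt_st D N (fun m => Pool.Agent.N141.SG.NearDeg 10 m)] at hN
  exact_mod_cast hN

theorem eleven_unif {κ : ℝ} (hκ : 0 < κ) : ∃ M : ℝ, ∀ d : Dat, Large κ M d →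
    986 / 1000 * ((d.A.card : ℝ) * d.B.card) ≤ cnt d (fun m => Pool.Agent.N141.SG.NearDeg 11 m) := by
  refine unif fun D hD => ?_
  filter_upwards [eleven_gen (f := vl D) (algSmall_st hκ hD)] with N hN
  rw [card_st, cnt_st D N (fun m => Pool.Agent.N141.SG.NearDeg 11 m)] at hN
  exact_mod_cast hN

end Pool.Agent.V8H28.BL
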