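import Pool.Agent.V8H12.AM.A
import Pool.Agent.Y961.JR.Class

set_option autoImplicit false

/-! Bilinear exponential sums over arbitrary sets, algebraic frequencies (helper28). -/

namespace Pool.Agent.V8H28.BL

open Finset
open Pool.Agent.H469R2.NK (e norm_e e_add conj_e e_zero)
open Pool.Agent.Y961.JR (geom_bound)
open Pool.Agent.V8H12.AM (Lio large_of_close)

/-- sets with gaps in an interval -/
lemma card_gap' {g : ℝ} (hg : 0 ≤ g) (L : ℝ) (S : Finset ℕ) :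
    (∀ x ∈ S, ∀ y ∈ S, x < y → g ≤ (y : ℝ) - x) →
    ∀ T : ℝ, (∀ x ∈ S, L ≤ (x : ℝ) ∧ (x : ℝ) ≤ T) → L ≤ T → (S.card : ℝ) * g ≤ T - L + g := by
  induction S using Finset.induction_on_max with
  | empty =>
    intro _ T _ hT
    simp only [card_empty, Nat.cast_zero, zero_mul]
    linarith
  | insert a s has ih =>
    intro h2 T h3 hT
    have ha : a ∉ s := fun h => lt_irrefl a (has a h)
    rw [card_insert_of_notMem ha]
    rcases s.eq_empty_or_nonempty with hs | ⟨x, hx⟩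
    · rw [hs]
      simp only [card_empty, zero_add, Nat.cast_one, one_mul]
      linarith
    · have h4 := ih (fun x hx y hy => h2 x (mem_insert_of_mem hx) y (mem_insert_of_mem hy)) ((a : ℝ) - g)
        (fun x hx => ⟨(h3 x (mem_insert_of_mem hx)).1, by
          have := h2 x (mem_insert_of_mem hx) a (mem_insert_self a s) (has x hx)
          linarith⟩) (by
          have h5 := h2 x (mem_insert_of_mem hx) a (mem_insert_self a s) (has x hx)
          have h6 := (h3 x (mem_insert_of_mem hx)).1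
          linarith)
      have h5 := (h3 a (mem_insert_self a s)).2
      push_cast
      linarith

/-- Cauchy's inequality -/
lemma cs (A B : Finset ℕ) (U X : ℕ) (hA : ∀ a ∈ A, U < a ∧ a ≤ U + X) (F H : ℕ → ℂ)
    (hF : ∀ a, ‖F a‖ ≤ 1) (hH : ∀ b, ‖H b‖ ≤ 1) (φ : ℝ) :
    ‖∑ a ∈ A, ∑ b ∈ B, F a * H b * e (φ * a * b)‖ ^ 2 ≤
      A.card * ∑ b ∈ B, ∑ b' ∈ B, ‖∑ a ∈ Ioc U (U + X), e ((a : ℝ) * (φ * ((b : ℝ) - b')))‖ := by
  obtain ⟨S, hS⟩ : ∃ S : ℕ → ℂ, S = fun a : ℕ => ∑ b ∈ B, H b * e (φ * a * b) := ⟨_, rfl⟩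
  have e1 : ∑ a ∈ A, ∑ b ∈ B, F a * H b * e (φ * a * b) = ∑ a ∈ A, F a * S a := by
    refine sum_congr rfl fun a _ => ?_
    rw [hS, mul_sum]
    exact sum_congr rfl fun b _ => by ring
  have h1 : ‖∑ a ∈ A, F a * S a‖ ≤ ∑ a ∈ A, ‖S a‖ := by
    refine (norm_sum_le _ _).trans (sum_le_sum fun a _ => ?_)
    rw [norm_mul]
    exact mul_le_of_le_one_left (norm_nonneg _) (hF a)
  have h2 : (∑ a ∈ A, ‖S a‖) ^ 2 ≤ A.card * ∑ a ∈ A, ‖S a‖ ^ 2 := sq_sum_le_card_mul_sum_sq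
  have h3 : ∑ a ∈ A, ‖S a‖ ^ 2 ≤ ∑ a ∈ Ioc U (U + X), ‖S a‖ ^ 2 :=
    sum_le_sum_of_subset_of_nonneg (fun a ha => mem_Ioc.2 (hA a ha)) fun _ _ _ => by positivity
  have h4 : ∑ a ∈ Ioc U (U + X), ‖S a‖ ^ 2 ≤
      ∑ b ∈ B, ∑ b' ∈ B, ‖∑ a ∈ Ioc U (U + X), e ((a : ℝ) * (φ * ((b : ℝ) - b')))‖ := by
    have e2 : ((∑ a ∈ Ioc U (U + X), ‖S a‖ ^ 2 : ℝ) : ℂ) = ∑ b ∈ B, ∑ b' ∈ B,
        (H b * (starRingEnd ℂ) (H b')) * ∑ a ∈ Ioc U (U + X), e ((a : ℝ) * (φ * ((b : ℝ) - b'))) := by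
      have e3 : ∀ a : ℕ, ((‖S a‖ ^ 2 : ℝ) : ℂ) = ∑ b ∈ B, ∑ b' ∈ B,
          (H b * (starRingEnd ℂ) (H b')) * e ((a : ℝ) * (φ * ((b : ℝ) - b'))) := by
        intro a
        have e4 : ((‖S a‖ ^ 2 : ℝ) : ℂ) = S a * (starRingEnd ℂ) (S a) := by
          rw [Complex.mul_conj, Complex.normSq_eq_norm_sq]
        rw [e4, hS]
        simp only [map_sum, map_mul]
        rw [sum_mul_sum]
        refine sum_congr rfl fun b _ => sum_congr rfl fun b' _ => ?_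
        rw [conj_e]
        have e5 : e ((a : ℝ) * (φ * ((b : ℝ) - b'))) = e (φ * a * b) * e (-(φ * a * b')) := by
          rw [← e_add]
          congr 1
          ring
        rw [e5]
        ring
      push_cast
      have e6 : ∀ a ∈ Ioc U (U + X), ((‖S a‖ : ℂ)) ^ 2 = ∑ b ∈ B, ∑ b' ∈ B,
          (H b * (starRingEnd ℂ) (H b')) * e ((a : ℝ) * (φ * ((b : ℝ) - b'))) := by
        intro a _
        rw [← e3 a]
        push_cast
        rfl
      rw [sum_congr rfl e6, sum_comm]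
      refine sum_congr rfl fun b _ => ?_
      rw [sum_comm]
      refine sum_congr rfl fun b' _ => ?_
      rw [mul_sum]
    have h5 : (0 : ℝ) ≤ ∑ a ∈ Ioc U (U + X), ‖S a‖ ^ 2 := sum_nonneg fun _ _ => by positivity
    have h6 : ‖((∑ a ∈ Ioc U (U + X), ‖S a‖ ^ 2 : ℝ) : ℂ)‖ = ∑ a ∈ Ioc U (U + X), ‖S a‖ ^ 2 := by
      rw [Complex.norm_real, Real.norm_of_nonneg h5]
    rw [← h6, e2]
    refine (norm_sum_le _ _).trans (sum_le_sum fun b _ => (norm_sum_le _ _).trans (sum_le_sum fun b' _ => ?_))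
    rw [norm_mul, norm_mul, Complex.norm_conj]
    refine mul_le_of_le_one_left (norm_nonneg _) ?_
    exact mul_le_one₀ (hH b) (norm_nonneg _) (hH b')
  rw [e1]
  have hc : (0 : ℝ) ≤ A.card := Nat.cast_nonneg _
  calc ‖∑ a ∈ A, F a * S a‖ ^ 2 ≤ (∑ a ∈ A, ‖S a‖) ^ 2 := by
        exact pow_le_pow_left₀ (norm_nonneg _) h1 2
    _ ≤ A.card * ∑ a ∈ A, ‖S a‖ ^ 2 := h2
    _ ≤ _ := mul_le_mul_of_nonneg_left (h3.trans h4) hc

/-- the geometric sums -/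
lemma geo (U X : ℕ) (ψ δ : ℝ) (hδ : 0 < δ) (h : ∀ m : ℤ, δ ≤ |ψ - m|) :
    ‖∑ a ∈ Ioc U (U + X), e ((a : ℝ) * ψ)‖ ≤ 2 / δ := by
  have e1 : ∑ a ∈ Ioc U (U + X), e ((a : ℝ) * ψ) = ∑ m ∈ range X, e (((U : ℝ) + 1) * ψ + m * ψ) := by
    have e2 : Ioc U (U + X) = (range X).image (fun m => U + 1 + m) := by
      ext a
      simp only [mem_Ioc, mem_image, mem_range]
      constructor
      · rintro ⟨h1, h2⟩
        exact ⟨a - (U + 1), by omega, by omega⟩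
      · rintro ⟨m, h1, rfl⟩
        omega
    rw [e2, sum_image (fun x _ y _ hxy => by simpa using hxy)]
    refine sum_congr rfl fun m _ => ?_
    congr 1
    push_cast
    ring
  rw [e1]
  exact geom_bound ψ _ δ hδ h X

open Classical in
/-- the points near to the integers -/
lemma near_card (B : Finset ℕ) (V Y : ℕ) (hB : ∀ b ∈ B, V < b ∧ b ≤ V + Y)
    {τ c θ : ℝ} (hτ : 1 ≤ τ) (hc : 0 < c) (hL : Lio τ c θ) {β : ℕ} (hβ : 1 ≤ β) {δ : ℝ} (hδ : 0 < δ) (x : ℝ) :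
    ((B.filter (fun b' : ℕ => ∃ m : ℤ, |(β * θ) * (x - b') - m| ≤ δ)).card : ℝ) ≤
      1 + Y / ((c / (2 * δ)) ^ (1 / τ) / β) := by
  classical
  obtain ⟨g, hg⟩ : ∃ g : ℝ, g = (c / (2 * δ)) ^ (1 / τ) / β := ⟨_, rfl⟩
  have hβ0 : (0 : ℝ) < β := by exact_mod_cast hβ
  have hg0 : 0 < g := by rw [hg]; positivity
  rw [← hg]
  have h2 := card_gap' hg0.le (V : ℝ) (B.filter (fun b' : ℕ => ∃ m : ℤ, |(β * θ) * (x - b') - m| ≤ δ))
    (by
      intro y hy z hz hyz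
      obtain ⟨-, m, hm⟩ := mem_filter.1 hy
      obtain ⟨-, n, hn⟩ := mem_filter.1 hz
      have h3 : |((β * (z - y) : ℕ) : ℝ) * θ - ((m - n : ℤ) : ℝ)| ≤ 2 * δ := by
        have e1 : ((β * (z - y) : ℕ) : ℝ) * θ - ((m - n : ℤ) : ℝ) =
            ((β * θ) * (x - y) - m) - ((β * θ) * (x - z) - n) := by
          rw [Nat.cast_mul, Nat.cast_sub hyz.le]
          push_cast
          ring
        rw [e1]
        refine (abs_sub _ _).trans ?_
        linarith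
      have h4 := large_of_close hτ hc hL hδ (n := β * (z - y))
        (Nat.mul_pos hβ (by omega)) h3
      rw [hg, div_le_iff₀ hβ0]
      refine h4.trans (le_of_eq ?_)
      rw [Nat.cast_mul, Nat.cast_sub hyz.le]
      ring)
    ((V : ℝ) + Y) (fun x hx => by
      obtain ⟨h5, h6⟩ := hB x (mem_filter.1 hx).1
      constructor
      · exact_mod_cast h5.le
      · exact_mod_cast h6) (by
        have : (0 : ℝ) ≤ Y := Nat.cast_nonneg _
        linarith)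
  have h7 : (((B.filter (fun b' : ℕ => ∃ m : ℤ, |(β * θ) * (x - b') - m| ≤ δ)).card : ℕ) : ℝ) * g ≤
      (1 + Y / g) * g := by
    refine h2.trans (le_of_eq ?_)
    field_simp
    ring
  exact le_of_mul_le_mul_right h7 hg0

open Classical in
/-- one term: the distance from the integers lies between two thresholds -/
lemma term_le (U X : ℕ) (hX : 1 ≤ X) (K : ℕ) (hK : 1 ≤ K) (ψ : ℝ) :
    ‖∑ a ∈ Ioc U (U + X), e ((a : ℝ) * ψ)‖ ≤ ∑ i ∈ range (K + 1),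
      (if ∃ m : ℤ, |ψ - m| ≤ (X : ℝ) ^ (-((i : ℝ) / K)) then 2 * (X : ℝ) ^ (((i : ℝ) + 1) / K) else 0) := by
  have hX1 : (1 : ℝ) ≤ X := by exact_mod_cast hX
  have hX0 : (0 : ℝ) < X := by linarith
  have hK0 : (0 : ℝ) < K := by exact_mod_cast hK
  have hnn : ∀ i ∈ range (K + 1), (0 : ℝ) ≤
      (if ∃ m : ℤ, |ψ - m| ≤ (X : ℝ) ^ (-((i : ℝ) / K)) then 2 * (X : ℝ) ^ (((i : ℝ) + 1) / K) else 0) := by
    intro i _
    split_ifs
    · positivity
    · exact le_rfl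
  -- the last index
  by_cases hlast : ∃ m : ℤ, |ψ - m| ≤ (X : ℝ) ^ (-((K : ℝ) / K))
  · refine le_trans ?_ (single_le_sum hnn (mem_range.2 (Nat.lt_succ_self K)))
    rw [if_pos hlast]
    have h1 : ‖∑ a ∈ Ioc U (U + X), e ((a : ℝ) * ψ)‖ ≤ X := by
      refine (norm_sum_le _ _).trans (le_of_eq ?_)
      rw [sum_congr rfl fun a _ => norm_e _, sum_const, nsmul_eq_mul, mul_one, Nat.card_Ioc]
      congr 1
      omega
    have h2 : (X : ℝ) ≤ (X : ℝ) ^ (((K : ℝ) + 1) / K) := by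
      calc (X : ℝ) = (X : ℝ) ^ (1 : ℝ) := (Real.rpow_one _).symm
        _ ≤ _ := by
          apply Real.rpow_le_rpow_of_exponent_le hX1
          rw [le_div_iff₀ hK0]
          linarith
    linarith
  · -- the least index at which the point is far from the integers
    have hex : ∃ i : ℕ, ¬ ∃ m : ℤ, |ψ - m| ≤ (X : ℝ) ^ (-((i : ℝ) / K)) := ⟨K, hlast⟩
    obtain ⟨j, hj⟩ : ∃ j : ℕ, j = Nat.find hex := ⟨_, rfl⟩
    have hj1 : ¬ ∃ m : ℤ, |ψ - m| ≤ (X : ℝ) ^ (-((j : ℝ) / K)) := by rw [hj]; exact Nat.find_spec hex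
    have hjK : j ≤ K := by rw [hj]; exact Nat.find_min' hex hlast
    have hj0 : j ≠ 0 := by
      intro h0
      apply hj1
      refine ⟨round ψ, ?_⟩
      rw [h0]
      simp only [Nat.cast_zero, zero_div, neg_zero, Real.rpow_zero]
      have := abs_sub_round ψ
      linarith
    obtain ⟨i, rfl⟩ := Nat.exists_eq_succ_of_ne_zero hj0
    have hi : ∃ m : ℤ, |ψ - m| ≤ (X : ℝ) ^ (-((i : ℝ) / K)) := by
      by_contra h
      have := Nat.find_min' hex h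
      omega
    refine le_trans ?_ (single_le_sum hnn (mem_range.2 (by omega : i < K + 1)))
    rw [if_pos hi]
    push Not at hj1
    have h1 := geo U X ψ ((X : ℝ) ^ (-(((i.succ : ℕ) : ℝ) / K))) (by positivity) (fun m => (hj1 m).le)
    refine h1.trans (le_of_eq ?_)
    rw [Real.rpow_neg hX0.le, div_inv_eq_mul]
    push_cast
    ring

/-- **bilinear sums** -/
theorem bil (A B : Finset ℕ) (U X V Y : ℕ) (hA : ∀ a ∈ A, U < a ∧ a ≤ U + X)
    (hB : ∀ b ∈ B, V < b ∧ b ≤ V + Y) (F H : ℕ → ℂ) (hF : ∀ a, ‖F a‖ ≤ 1) (hH : ∀ b, ‖H b‖ ≤ 1)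
    {τ c θ : ℝ} (hτ : 1 ≤ τ) (hc : 0 < c) (hL : Lio τ c θ) {β : ℕ} (hβ : 1 ≤ β) (hX : 1 ≤ X) (K : ℕ) (hK : 1 ≤ K) :
    ‖∑ a ∈ A, ∑ b ∈ B, F a * H b * e ((β * θ) * a * b)‖ ^ 2 ≤
      A.card * (B.card * ((K + 1) * (2 * ((X : ℝ) ^ (1 + 1 / (K : ℝ)) +
        Y * β * (2 / c) ^ (1 / τ) * (X : ℝ) ^ (1 / (K : ℝ) + (1 - 1 / τ)))))) := by
  classical
  refine (cs A B U X hA F H hF hH (β * θ)).trans ?_
  have hc0 : (0 : ℝ) ≤ A.card := Nat.cast_nonneg _
  refine mul_le_mul_of_nonneg_left ?_ hc0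
  have hX1 : (1 : ℝ) ≤ X := by exact_mod_cast hX
  have hX0 : (0 : ℝ) < X := by linarith
  have hK0 : (0 : ℝ) < K := by exact_mod_cast hK
  have hβ0 : (0 : ℝ) < β := by exact_mod_cast hβ
  have hY0 : (0 : ℝ) ≤ Y := Nat.cast_nonneg _
  have hτ0 : 0 < τ := by linarith
  obtain ⟨T, hT⟩ : ∃ T : ℝ, T = 2 * ((X : ℝ) ^ (1 + 1 / (K : ℝ)) +
        Y * β * (2 / c) ^ (1 / τ) * (X : ℝ) ^ (1 / (K : ℝ) + (1 - 1 / τ))) := ⟨_, rfl⟩
  rw [← hT]
  have key : ∀ b ∈ B, ∑ b' ∈ B, ‖∑ a ∈ Ioc U (U + X), e ((a : ℝ) * ((β * θ) * ((b : ℝ) - b')))‖ ≤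
      ((K : ℝ) + 1) * T := by
    intro b _
    refine (sum_le_sum fun b' _ => term_le U X hX K hK _).trans ?_
    rw [sum_comm]
    have h1 : ∀ i ∈ range (K + 1), ∑ b' ∈ B,
        (if ∃ m : ℤ, |(β * θ) * ((b : ℝ) - b') - m| ≤ (X : ℝ) ^ (-((i : ℝ) / K)) then
          2 * (X : ℝ) ^ (((i : ℝ) + 1) / K) else 0) ≤ T := by
      intro i hi
      rw [← sum_filter, sum_const, nsmul_eq_mul]
      have h2 := near_card B V Y hB hτ hc hL hβ (δ := (X : ℝ) ^ (-((i : ℝ) / K))) (by positivity) b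
      refine (mul_le_mul_of_nonneg_right h2 (by positivity)).trans ?_
      have hiK : (i : ℝ) ≤ K := by
        have := mem_range.1 hi
        exact_mod_cast (by omega : i ≤ K)
      have hi0 : (0 : ℝ) ≤ i := Nat.cast_nonneg _
      have e1 : (Y : ℝ) / ((c / (2 * (X : ℝ) ^ (-((i : ℝ) / K)))) ^ (1 / τ) / β) =
          Y * β * (2 / c) ^ (1 / τ) * (X : ℝ) ^ (-((i : ℝ) / K / τ)) := by
        have e2 : c / (2 * (X : ℝ) ^ (-((i : ℝ) / K))) = (2 / c)⁻¹ * (X : ℝ) ^ ((i : ℝ) / K) := by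
          rw [Real.rpow_neg hX0.le]
          field_simp
        rw [e2, Real.mul_rpow (by positivity) (by positivity), ← Real.rpow_mul hX0.le,
          Real.inv_rpow (by positivity), mul_one_div, Real.rpow_neg hX0.le]
        have h3 : (0 : ℝ) < (X : ℝ) ^ ((i : ℝ) / K / τ) := by positivity
        have h4 : (0 : ℝ) < (2 / c) ^ (1 / τ) := by positivity
        field_simp
      rw [e1, hT]
      have h3 : (X : ℝ) ^ (((i : ℝ) + 1) / K) ≤ (X : ℝ) ^ (1 + 1 / (K : ℝ)) := by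
        apply Real.rpow_le_rpow_of_exponent_le hX1
        rw [div_le_iff₀ hK0]
        field_simp
        linarith
      have h4 : (X : ℝ) ^ (-((i : ℝ) / K / τ)) * (X : ℝ) ^ (((i : ℝ) + 1) / K) ≤
          (X : ℝ) ^ (1 / (K : ℝ) + (1 - 1 / τ)) := by
        rw [← Real.rpow_add hX0]
        apply Real.rpow_le_rpow_of_exponent_le hX1
        have h5 : (i : ℝ) / K ≤ 1 := by rw [div_le_one hK0]; exact hiK
        have h6 : 0 ≤ 1 - 1 / τ := by
          rw [sub_nonneg, div_le_one hτ0]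
          exact hτ
        have h7 : -((i : ℝ) / K / τ) + ((i : ℝ) + 1) / K = 1 / (K : ℝ) + (i : ℝ) / K * (1 - 1 / τ) := by
          field_simp
          ring
        rw [h7]
        have h8 := mul_le_mul_of_nonneg_right h5 h6
        linarith
      have h5 : 0 ≤ (Y : ℝ) * β * (2 / c) ^ (1 / τ) := by positivity
      have h6 := mul_le_mul_of_nonneg_left h4 h5
      calc (1 + Y * β * (2 / c) ^ (1 / τ) * (X : ℝ) ^ (-((i : ℝ) / K / τ))) * (2 * (X : ℝ) ^ (((i : ℝ) + 1) / K))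
          = 2 * ((X : ℝ) ^ (((i : ℝ) + 1) / K) + Y * β * (2 / c) ^ (1 / τ) *
              ((X : ℝ) ^ (-((i : ℝ) / K / τ)) * (X : ℝ) ^ (((i : ℝ) + 1) / K))) := by ring
        _ ≤ _ := by linarith
    refine (sum_le_sum h1).trans (le_of_eq ?_)
    rw [sum_const, card_range, nsmul_eq_mul]
    push_cast
    ring
  refine (sum_le_sum key).trans (le_of_eq ?_)
  rw [sum_const, nsmul_eq_mul]

end Pool.Agent.V8H28.BL
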