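import Pool.Agent.V8H28.BL.A
import Pool.Agent.V8H12.AM.F
import Pool.Agent.W472.AC.RothThm

set_option autoImplicit false

/-! Values `β a b + g(a) + h(b)` on large sets of pairs (helper28). -/

namespace Pool.Agent.V8H28.BL

open Finset Filter
open Pool.Agent.H469R2.NK (e norm_e e_add conj_e e_zero)
open Pool.Agent.V8H12.AM (Lio large_of_close lio_of)
open Pool.Agent.N141.SG (SmallTo AlgSmall)

/-- two finite sets, two functions and a coefficient -/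
structure Dat where
  /-- the coefficient -/
  β : ℕ
  /-- the first set -/
  A : Finset ℕ
  /-- the second set -/
  B : Finset ℕ
  /-- the first function -/
  g : ℕ → ℕ
  /-- the second function -/
  h : ℕ → ℕ

/-- the values -/
def Dat.val (d : Dat) (a b : ℕ) : ℕ := d.β * a * b + d.g a + d.h b

/-- the sets are large subsets of two intervals -/
def Large (κ M : ℝ) (d : Dat) : Prop :=
  ∃ U X V Y : ℕ, M ≤ X ∧ M ≤ Y ∧ (∀ a ∈ d.A, U < a ∧ a ≤ U + X) ∧ (∀ b ∈ d.B, V < b ∧ b ≤ V + Y) ∧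
    max (X : ℝ) Y * (min (X : ℝ) Y) ^ κ ≤ d.A.card * d.B.card ∧ 1 ≤ d.β ∧ (d.β : ℝ) ≤ (min (X : ℝ) Y) ^ (κ / 2)

lemma Large.mono {κ M M' : ℝ} {d : Dat} (h : Large κ M' d) (hM : M ≤ M') : Large κ M d := by
  obtain ⟨U, X, V, Y, hX, hY, h⟩ := h
  exact ⟨U, X, V, Y, hM.trans hX, hM.trans hY, h⟩

/-- Roth's theorem -/
lemma lio {θ : ℝ} (hθ : Irrational θ) (ha : IsAlgebraic ℤ θ) {η : ℝ} (hη : 0 < η) :
    ∃ c : ℝ, 0 < c ∧ Lio (1 + η) c θ := by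
  obtain ⟨c, hc, h⟩ := Pool.Agent.W472.AC.roth θ ((IsFractionRing.isAlgebraic_iff ℤ ℚ ℝ).1 ha) hθ η hη
  refine ⟨c, hc, fun n hn m => ?_⟩
  have hn0 : (0 : ℝ) < n := by exact_mod_cast hn
  have h1 := h n hn m
  rw [Real.rpow_neg hn0.le, ← div_eq_mul_inv, div_le_iff₀ (by positivity), mul_comm]
  exact h1

lemma num {κ : ℝ} (hκ : 0 < κ) {c : ℝ} (hc : 0 < c) {ε : ℝ} (hε : 0 < ε) :
    ∃ K : ℕ, 1 ≤ K ∧ ∃ M₀ : ℝ, 1 ≤ M₀ ∧ ∀ X Y β a b : ℝ, M₀ ≤ X → X ≤ Y → 0 ≤ a → 0 ≤ b →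
      Y * X ^ κ ≤ a * b → 1 ≤ β → β ≤ X ^ (κ / 2) →
      ((K : ℝ) + 1) * (2 * (X ^ (1 + 1 / (K : ℝ)) + Y * β * (2 / c) ^ (1 / (1 + κ / 16)) *
        X ^ (1 / (K : ℝ) + (1 - 1 / (1 + κ / 16))))) ≤ ε ^ 2 * (a * b) := by
  obtain ⟨K, hK⟩ := exists_nat_gt (16 / κ)
  have hK0 : (0 : ℝ) < K := lt_trans (by positivity) hK
  have hK1 : 1 ≤ K := by exact_mod_cast hK0
  have hKκ : 1 / (K : ℝ) ≤ κ / 16 := by
    rw [div_le_iff₀ hK0]
    rw [div_lt_iff₀ hκ] at hK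
    linarith
  obtain ⟨C, hC⟩ : ∃ C : ℝ, C = ((K : ℝ) + 1) * (2 * (1 + (2 / c) ^ (1 / (1 + κ / 16)))) := ⟨_, rfl⟩
  have hC0 : 0 < C := by rw [hC]; positivity
  refine ⟨K, hK1, max 1 ((C / ε ^ 2) ^ (8 / (3 * κ))), le_max_left _ _, ?_⟩
  intro X Y β a b hX hXY ha hb hab hβ1 hβ
  have hX1 : 1 ≤ X := (le_max_left _ _).trans hX
  have hX0 : 0 < X := by linarith
  have hY0 : 0 < Y := by linarith
  have hβ0 : 0 < β := by linarith
  have hMb : C / ε ^ 2 ≤ X ^ (3 * κ / 8) := by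
    have h1 : (C / ε ^ 2) ^ (8 / (3 * κ)) ≤ X := (le_max_right _ _).trans hX
    have h2 := Real.rpow_le_rpow (by positivity) h1 (by positivity : (0 : ℝ) ≤ 3 * κ / 8)
    rwa [← Real.rpow_mul (by positivity), show 8 / (3 * κ) * (3 * κ / 8) = 1 by field_simp, Real.rpow_one] at h2
  have hτ : 1 - 1 / (1 + κ / 16) ≤ κ / 16 := by
    have h1 : 1 - 1 / (1 + κ / 16) = (κ / 16) / (1 + κ / 16) := by field_simp; ring
    rw [h1, div_le_iff₀ (by positivity)]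
    nlinarith
  have h1 : X ^ (1 / (K : ℝ) + (1 - 1 / (1 + κ / 16))) ≤ X ^ (κ / 8) :=
    Real.rpow_le_rpow_of_exponent_le hX1 (by linarith)
  have h2 : X ^ (1 + 1 / (K : ℝ)) ≤ Y * β * X ^ (κ / 8) := by
    rw [Real.rpow_add hX0, Real.rpow_one]
    have h3 : X ^ (1 / (K : ℝ)) ≤ X ^ (κ / 8) := Real.rpow_le_rpow_of_exponent_le hX1 (by linarith)
    have h4 : X ≤ Y * β := by nlinarith
    exact mul_le_mul h4 h3 (by positivity) (by positivity)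
  have h3 : Y * β * (2 / c) ^ (1 / (1 + κ / 16)) * X ^ (1 / (K : ℝ) + (1 - 1 / (1 + κ / 16))) ≤
      (2 / c) ^ (1 / (1 + κ / 16)) * (Y * β * X ^ (κ / 8)) := by
    have h4 : 0 ≤ Y * β * (2 / c) ^ (1 / (1 + κ / 16)) := by positivity
    refine (mul_le_mul_of_nonneg_left h1 h4).trans (le_of_eq ?_)
    ring
  have h4 : ((K : ℝ) + 1) * (2 * (X ^ (1 + 1 / (K : ℝ)) + Y * β * (2 / c) ^ (1 / (1 + κ / 16)) *
        X ^ (1 / (K : ℝ) + (1 - 1 / (1 + κ / 16))))) ≤ C * (Y * β * X ^ (κ / 8)) := by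
    rw [hC]
    have h5 : X ^ (1 + 1 / (K : ℝ)) + Y * β * (2 / c) ^ (1 / (1 + κ / 16)) *
        X ^ (1 / (K : ℝ) + (1 - 1 / (1 + κ / 16))) ≤ (1 + (2 / c) ^ (1 / (1 + κ / 16))) * (Y * β * X ^ (κ / 8)) := by
      linarith
    calc ((K : ℝ) + 1) * (2 * (X ^ (1 + 1 / (K : ℝ)) + Y * β * (2 / c) ^ (1 / (1 + κ / 16)) *
        X ^ (1 / (K : ℝ) + (1 - 1 / (1 + κ / 16)))))
        ≤ ((K : ℝ) + 1) * (2 * ((1 + (2 / c) ^ (1 / (1 + κ / 16))) * (Y * β * X ^ (κ / 8)))) := by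
          apply mul_le_mul_of_nonneg_left _ (by positivity)
          apply mul_le_mul_of_nonneg_left h5 (by norm_num)
      _ = _ := by ring
  refine h4.trans ?_
  have h5 : Y * β * X ^ (κ / 8) ≤ a * b * X ^ (-(3 * κ / 8)) := by
    calc Y * β * X ^ (κ / 8) ≤ Y * X ^ (κ / 2) * X ^ (κ / 8) := by
          apply mul_le_mul_of_nonneg_right _ (by positivity)
          exact mul_le_mul_of_nonneg_left hβ hY0.le
      _ = (Y * X ^ κ) * X ^ (-(3 * κ / 8)) := by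
          rw [mul_assoc, mul_assoc, ← Real.rpow_add hX0, ← Real.rpow_add hX0]
          congr 2
          ring
      _ ≤ a * b * X ^ (-(3 * κ / 8)) := mul_le_mul_of_nonneg_right hab (by positivity)
  have hab0 : 0 ≤ a * b := mul_nonneg ha hb
  calc C * (Y * β * X ^ (κ / 8)) ≤ C * (a * b * X ^ (-(3 * κ / 8))) := mul_le_mul_of_nonneg_left h5 hC0.le
    _ ≤ (ε ^ 2 * X ^ (3 * κ / 8)) * (a * b * X ^ (-(3 * κ / 8))) := by
        apply mul_le_mul_of_nonneg_right _ (by positivity)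
        rw [div_le_iff₀ (by positivity)] at hMb
        linarith
    _ = ε ^ 2 * (a * b) * (X ^ (3 * κ / 8) * X ^ (-(3 * κ / 8))) := by ring
    _ = ε ^ 2 * (a * b) := by
        rw [← Real.rpow_add hX0, add_neg_cancel, Real.rpow_zero, mul_one]

/-- the exponential sums over the values are small -/
theorem small {κ : ℝ} (hκ : 0 < κ) {θ : ℝ} (hθ : Irrational θ) (ha : IsAlgebraic ℤ θ) {ε : ℝ} (hε : 0 < ε) :
    ∃ M₀ : ℝ, ∀ d : Dat, Large κ M₀ d →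
      ‖∑ a ∈ d.A, ∑ b ∈ d.B, e (θ * (d.val a b : ℝ))‖ ≤ ε * (d.A.card * d.B.card) := by
  obtain ⟨c, hc, hL⟩ := lio hθ ha (η := κ / 16) (by positivity)
  obtain ⟨K, hK, M₀, hM₀, h⟩ := num hκ hc hε
  have hτ : (1 : ℝ) ≤ 1 + κ / 16 := by linarith
  refine ⟨M₀, ?_⟩
  rintro ⟨β, A, B, g, h'⟩ ⟨U, X, V, Y, hX, hY, hA, hB, hXY, hβ1, hβ⟩
  simp only at hA hB hXY hβ1 hβ ⊢
  have hX1 : 1 ≤ X := by exact_mod_cast hM₀.trans hX
  have hY1 : 1 ≤ Y := by exact_mod_cast hM₀.trans hY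
  have e1 : ∑ a ∈ A, ∑ b ∈ B, e (θ * (Dat.val ⟨β, A, B, g, h'⟩ a b : ℝ)) =
      ∑ a ∈ A, ∑ b ∈ B, e (θ * g a) * e (θ * h' b) * e ((β * θ) * a * b) := by
    refine sum_congr rfl fun a _ => sum_congr rfl fun b _ => ?_
    rw [← e_add, ← e_add]
    congr 1
    unfold Dat.val
    push_cast
    ring
  rw [e1]
  have hc0 : (0 : ℝ) ≤ A.card := Nat.cast_nonneg _
  have hb0 : (0 : ℝ) ≤ B.card := Nat.cast_nonneg _
  have hβ1' : (1 : ℝ) ≤ β := by exact_mod_cast hβ1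
  have h3 : ‖∑ a ∈ A, ∑ b ∈ B, e (θ * g a) * e (θ * h' b) * e ((β * θ) * a * b)‖ ^ 2 ≤
      (ε * (A.card * B.card)) ^ 2 := by
    rcases le_total (X : ℝ) Y with hle | hle
    · rw [max_eq_right hle, min_eq_left hle] at hXY
      rw [min_eq_left hle] at hβ
      have h1 := h X Y β A.card B.card hX hle hc0 hb0 hXY hβ1' hβ
      have h2 := bil A B U X V Y hA hB (fun a => e (θ * g a)) (fun b => e (θ * h' b)) (fun a => (norm_e _).le)
        (fun b => (norm_e _).le) hτ hc hL hβ1 hX1 K hK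
      refine h2.trans ?_
      refine (mul_le_mul_of_nonneg_left (mul_le_mul_of_nonneg_left h1 hb0) hc0).trans (le_of_eq ?_)
      ring
    · rw [max_eq_left hle, min_eq_right hle] at hXY
      rw [min_eq_right hle] at hβ
      have h1 := h Y X β B.card A.card hY hle hb0 hc0 (by rwa [mul_comm (B.card : ℝ)]) hβ1' hβ
      have h2 := bil B A V Y U X hB hA (fun b => e (θ * h' b)) (fun a => e (θ * g a)) (fun b => (norm_e _).le)
        (fun a => (norm_e _).le) hτ hc hL hβ1 hY1 K hK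
      have e2 : ∑ a ∈ A, ∑ b ∈ B, e (θ * g a) * e (θ * h' b) * e ((β * θ) * a * b) =
          ∑ b ∈ B, ∑ a ∈ A, e (θ * h' b) * e (θ * g a) * e ((β * θ) * b * a) := by
        rw [sum_comm]
        refine sum_congr rfl fun b _ => sum_congr rfl fun a _ => ?_
        have e3 : (β * θ) * (a : ℝ) * b = (β * θ) * b * a := by ring
        rw [e3]
        ring
      rw [e2]
      refine h2.trans ?_
      refine (mul_le_mul_of_nonneg_left (mul_le_mul_of_nonneg_left h1 hc0) hb0).trans (le_of_eq ?_)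
      ring
  exact (pow_le_pow_iff_left₀ (norm_nonneg _) (by positivity) (by norm_num)).mp h3

/-- the pairs, as numbers -/
def st (D : ℕ → Dat) (N : ℕ) : Finset ℕ :=
  ((D N).A ×ˢ (D N).B).image fun p => Nat.pair N (Nat.pair p.1 p.2)

/-- the values -/
def vl (D : ℕ → Dat) (t : ℕ) : ℕ := (D t.unpair.1).val t.unpair.2.unpair.1 t.unpair.2.unpair.2

lemma pair_inj (N : ℕ) : Function.Injective fun p : ℕ × ℕ => Nat.pair N (Nat.pair p.1 p.2) := by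
  rintro ⟨a, b⟩ ⟨a', b'⟩ h
  simp only [Nat.pair_eq_pair] at h
  simp [h.2.1, h.2.2]

lemma vl_pair (D : ℕ → Dat) (N a b : ℕ) : vl D (Nat.pair N (Nat.pair a b)) = (D N).val a b := by
  simp [vl]

lemma card_st (D : ℕ → Dat) (N : ℕ) : (st D N).card = (D N).A.card * (D N).B.card := by
  unfold st
  rw [card_image_of_injective _ (pair_inj N), card_product]

theorem algSmall_st {κ : ℝ} (hκ : 0 < κ) {D : ℕ → Dat} (hD : ∀ N : ℕ, Large κ N (D N)) :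
    AlgSmall (st D) (fun t => (vl D t : ℤ)) := by
  intro θ hθ ha ε hε
  obtain ⟨M₀, h⟩ := small hκ hθ ha hε
  filter_upwards [tendsto_natCast_atTop_atTop.eventually_ge_atTop M₀] with N h2
  have h4 := h (D N) ((hD N).mono h2)
  have e1 : ∑ n ∈ st D N, e (θ * (((vl D n : ℕ) : ℤ) : ℝ)) = ∑ a ∈ (D N).A, ∑ b ∈ (D N).B, e (θ * ((D N).val a b : ℝ)) := by
    unfold st
    rw [sum_image (fun x _ y _ hxy => pair_inj N hxy), sum_product]
    refine sum_congr rfl fun a _ => sum_congr rfl fun b _ => ?_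
    rw [vl_pair]
    rfl
  rw [e1, card_st]
  push_cast
  exact h4

/-- the number of the pairs with a property of the value -/
noncomputable def cnt (d : Dat) (p : ℕ → Prop) : ℝ :=
  ({q : ℕ × ℕ | q.1 ∈ d.A ∧ q.2 ∈ d.B ∧ p (d.val q.1 q.2)}.ncard : ℝ)

lemma cnt_st (D : ℕ → Dat) (N : ℕ) (p : ℕ → Prop) :
    ({t : ℕ | t ∈ st D N ∧ p (vl D t)}.ncard : ℝ) = cnt (D N) p := by
  unfold cnt
  have h1 : {t : ℕ | t ∈ st D N ∧ p (vl D t)} = (fun q : ℕ × ℕ => Nat.pair N (Nat.pair q.1 q.2)) ''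
      {q : ℕ × ℕ | q.1 ∈ (D N).A ∧ q.2 ∈ (D N).B ∧ p ((D N).val q.1 q.2)} := by
    ext t
    simp only [Set.mem_ofPred_eq, Set.mem_image, st, mem_image, mem_product]
    constructor
    · rintro ⟨⟨q, ⟨h1, h2⟩, rfl⟩, h3⟩
      rw [vl_pair] at h3
      exact ⟨q, ⟨h1, h2, h3⟩, rfl⟩
    · rintro ⟨q, ⟨h1, h2, h3⟩, rfl⟩
      refine ⟨⟨q, ⟨h1, h2⟩, rfl⟩, ?_⟩
      rw [vl_pair]
      exact h3
  rw [h1, Set.ncard_image_of_injective _ (pair_inj N)]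

/-- from sequences to uniform statements -/
theorem unif {κ : ℝ} {P : Dat → Prop}
    (h : ∀ D : ℕ → Dat, (∀ N : ℕ, Large κ N (D N)) → ∀ᶠ N : ℕ in atTop, P (D N)) :
    ∃ M : ℝ, ∀ d : Dat, Large κ M d → P d := by
  by_contra hcon
  push Not at hcon
  have h1 : ∀ N : ℕ, ∃ d : Dat, Large κ N d ∧ ¬ P d := fun N => hcon N
  choose D hD using h1
  obtain ⟨N, hN⟩ := (h D fun N => (hD N).1).exists
  exact (hD N).2 hN

end Pool.Agent.V8H28.BL
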